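import Pool.Agent.K3h87.Tor.Graph

set_option autoImplicit false

namespace Pool.Agent.K3h87.Tor

open Finset

/-- the first colour of the `k`-th pair -/
def pa (k : ℕ) : ℕ := k / 3
/-- the second colour of the `k`-th pair -/
def pb (k : ℕ) : ℕ := if k % 3 < k / 3 then k % 3 else k % 3 + 1

/-- the lists of a gadget which exclude `(a, b)` -/
def gl (a b : ℕ) : Fin 7 → Finset ℕ :=
  ![{a, b, 4, 5}, {a, b, 6, 7}, {a, 4, 6, 7}, {b, 4, 6, 7}, {a, b, 6, 7}, {a, 5, 6, 7},
    {b, 5, 6, 7}]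

/-- the bad lists -/
def badL : VV → Finset ℕ :=
  Sum.elim ![{0, 1, 2, 3}, {0, 1, 2, 3}, {3, 4, 5, 6}, {2, 4, 5, 6}]
    (Sum.elim ![{2, 3, 5, 6}, {2, 3, 4, 6}, {2, 3, 4, 5}] (fun p => gl (pa p.1.val) (pb p.1.val) p.2))

theorem badL_card (x : VV) : (badL x).card = 4 := by
  rcases x with i | j | ⟨i, k⟩
  · revert i; decide +kernel
  · revert j; decide +kernel
  · revert i k; decide +kernel

theorem pair_index : ∀ a b : Fin 4, a ≠ b → ¬ (a = 3 ∧ b = 2) → ∃ i : Fin 11,
    pa i.val = a.val ∧ pb i.val = b.val := by decide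

theorem four_two {x a b p q : ℕ} (h : x = a ∨ x = b ∨ x = p ∨ x = q) (ha : x ≠ a) (hb : x ≠ b) :
    x = p ∨ x = q := by
  rcases h with h | h | h | h
  · exact absurd h ha
  · exact absurd h hb
  · exact Or.inl h
  · exact Or.inr h

theorem three_clash {x y z p q : ℕ} (hx : x = p ∨ x = q) (hy : y = p ∨ y = q) (hz : z = p ∨ z = q)
    (h1 : x ≠ y) (h2 : x ≠ z) (h3 : y ≠ z) : False := by
  rcases hx with rfl | rfl <;> rcases hy with rfl | rfl <;> rcases hz with rfl | rfl <;> simp_all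

theorem lt4 {x : ℕ} (h : x = 0 ∨ x = 1 ∨ x = 2 ∨ x = 3) : x < 4 := by omega

theorem not_ext_gl {a b : ℕ} : ¬ Ext (gl a b) a b := by
  rintro ⟨g, h1, h2, h3, h4⟩
  have m0 := h1 0
  have m1 := h1 1
  have m2 := h1 2
  have m3 := h1 3
  have m4 := h1 4
  have m5 := h1 5
  have m6 := h1 6
  simp only [gl, Matrix.cons_val, mem_insert, mem_singleton] at m0 m1 m2 m3 m4 m5 m6
  have a1 := h3 1 (by decide)
  have a2 := h3 2 (by decide)
  have a4 := h3 4 (by decide)
  have a5 := h3 5 (by decide)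
  have b1 := h4 1 (by decide)
  have b3 := h4 3 (by decide)
  have b4 := h4 4 (by decide)
  have b6 := h4 6 (by decide)
  have e1 := h2 0 2 (by decide)
  have e2 := h2 0 3 (by decide)
  have e3 := h2 0 5 (by decide)
  have e4 := h2 0 6 (by decide)
  have e5 := h2 1 2 (by decide)
  have e6 := h2 1 3 (by decide)
  have e7 := h2 2 3 (by decide)
  have e8 := h2 4 5 (by decide)
  have e9 := h2 4 6 (by decide)
  have e10 := h2 5 6 (by decide)
  rcases four_two m0 (h3 0 (by decide)) (h4 0 (by decide)) with h0 | h0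
  · rw [h0] at e1 e2
    exact three_clash (four_two m1 a1 b1) (four_two m2 a2 e1.symm) (four_two m3 b3 e2.symm) e5 e6 e7
  · rw [h0] at e3 e4
    exact three_clash (four_two m4 a4 b4) (four_two m5 a5 e3.symm) (four_two m6 b6 e4.symm) e8 e9 e10

theorem not_four : ¬ Choosable GG 4 := by
  intro h
  obtain ⟨c, hc, hp⟩ := h badL (fun x => (badL_card x).ge)
  have m0 := hc (cy 0)
  have m1 := hc (cy 1)
  have m2 := hc (cy 2)
  have m3 := hc (cy 3)
  have p0 := hc (po 0)
  have p1 := hc (po 1)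
  have p2 := hc (po 2)
  simp only [badL, Sum.elim_inl, Sum.elim_inr, Matrix.cons_val, mem_insert, mem_singleton]
    at m0 m1 m2 m3 p0 p1 p2
  have hA : ∀ (i : Fin 4) (j : Fin 3), c (cy i) ≠ c (po j) := fun i j => hp _ _ rfl
  have e01 : c (cy 0) ≠ c (cy 1) := hp _ _ (by rw [GG_adj]; decide)
  have e02 : c (cy 0) ≠ c (cy 2) := hp _ _ (by rw [GG_adj]; decide)
  have e23 : c (cy 2) ≠ c (cy 3) := hp _ _ (by rw [GG_adj]; decide)
  have e13 : c (cy 1) ≠ c (cy 3) := hp _ _ (by rw [GG_adj]; decide)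
  by_cases hcase : c (cy 0) = 3 ∧ c (cy 1) = 2
  · obtain ⟨h0, h1⟩ := hcase
    have q0 : c (po 0) = 5 ∨ c (po 0) = 6 :=
      four_two p0 (fun h => hA 1 0 (by rw [h1, h])) (fun h => hA 0 0 (by rw [h0, h]))
    have q1 : c (po 1) = 4 ∨ c (po 1) = 6 :=
      four_two p1 (fun h => hA 1 1 (by rw [h1, h])) (fun h => hA 0 1 (by rw [h0, h]))
    have q2 : c (po 2) = 4 ∨ c (po 2) = 5 :=
      four_two p2 (fun h => hA 1 2 (by rw [h1, h])) (fun h => hA 0 2 (by rw [h0, h]))
    have y2 : c (cy 2) = 4 ∨ c (cy 2) = 5 ∨ c (cy 2) = 6 := by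
      rcases m2 with h | h
      · exact absurd (h0.trans h.symm) e02
      · exact h
    have z2 : c (cy 3) = 4 ∨ c (cy 3) = 5 ∨ c (cy 3) = 6 := by
      rcases m3 with h | h
      · exact absurd (h1.trans h.symm) e13
      · exact h
    have f20 := hA 2 0
    have f21 := hA 2 1
    have f22 := hA 2 2
    have f30 := hA 3 0
    have f31 := hA 3 1
    have f32 := hA 3 2
    clear hA p0 p1 p2 m0 m1 m2 m3 e01 e02 e13 hp hc h0 h1
    rcases y2 with h | h | h <;> rcases z2 with k | k | k <;>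
      rw [h] at e23 f20 f21 f22 <;> rw [k] at e23 f30 f31 f32
    · exact e23 rfl
    · rcases q2 with q | q
      · exact f22 q.symm
      · exact f32 q.symm
    · rcases q1 with q | q
      · exact f21 q.symm
      · exact f31 q.symm
    · rcases q2 with q | q
      · exact f32 q.symm
      · exact f22 q.symm
    · exact e23 rfl
    · rcases q0 with q | q
      · exact f20 q.symm
      · exact f30 q.symm
    · rcases q1 with q | q
      · exact f31 q.symm
      · exact f21 q.symm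
    · rcases q0 with q | q
      · exact f30 q.symm
      · exact f20 q.symm
    · exact e23 rfl
  · obtain ⟨i, hi1, hi2⟩ := pair_index ⟨c (cy 0), lt4 m0⟩ ⟨c (cy 1), lt4 m1⟩
      (fun h => e01 (Fin.mk.inj h)) (fun h => hcase ⟨Fin.mk.inj h.1, Fin.mk.inj h.2⟩)
    simp only at hi1 hi2
    apply not_ext_gl (a := c (cy 0)) (b := c (cy 1))
    refine ⟨fun k => c (ga i k), ?_, ?_, ?_, ?_⟩
    · intro k
      have := hc (ga i k)
      simp only [badL, Sum.elim_inr] at this
      rw [hi1, hi2] at this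
      exact this
    · intro k l hkl
      apply hp
      rw [GG_adj]
      simp [adj, hkl]
    · intro k hk
      exact (hp (cy 0) (ga i k) hk).symm
    · intro k hk
      exact (hp (cy 1) (ga i k) hk).symm

/-- a proper 3-colouring -/
def col3 : VV → Fin 3 :=
  Sum.elim ![0, 1, 1, 0] (Sum.elim ![2, 2, 2] (fun p => ![2, 2, 1, 0, 2, 1, 0] p.2))

theorem colorable_three : GG.Colorable 3 := by
  refine ⟨SimpleGraph.Coloring.mk col3 ?_⟩
  intro x y h
  rw [GG_adj] at h
  rcases x with i | j | ⟨i, k⟩ <;> rcases y with i' | j' | ⟨i', k'⟩ <;>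
    simp only [adj] at h <;> simp only [col3, Sum.elim_inl, Sum.elim_inr]
  · revert i i'; decide
  · revert i j'; decide
  · revert i k'; decide
  · revert i' j; decide
  · cases h
  · cases h
  · revert i' k; decide
  · cases h
  · rw [Bool.and_eq_true] at h
    have h2 := h.2
    clear h
    revert k k'; decide

end Pool.Agent.K3h87.Tor
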