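import Mathlib
import Pool.Agent.H239R2.Cover.PlanarDefs

set_option autoImplicit false

/-!
List colourings, the jump of a graph, and toroidal graphs.
-/

namespace Pool.Agent.K3h87.Tor

open Pool.Agent.H239R2.Planar

/-- `G` is `k`-choosable: it can be properly coloured from all lists with at least `k` colours. -/
def Choosable {V : Type} (G : SimpleGraph V) (k : ℕ) : Prop :=
  ∀ L : V → Finset ℕ, (∀ v, k ≤ (L v).card) →
    ∃ c : V → ℕ, (∀ v, c v ∈ L v) ∧ ∀ u v, G.Adj u v → c u ≠ c v

/-- The list chromatic number: the least `k` such that `G` is `k`-choosable. -/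
noncomputable def listChromaticNumber {V : Type} (G : SimpleGraph V) : ℕ :=
  sInf {k | Choosable G k}

/-- The jump of `G`: its list chromatic number minus its chromatic number. -/
noncomputable def jump {V : Type} (G : SimpleGraph V) : ℤ :=
  (listChromaticNumber G : ℤ) - (G.chromaticNumber.toNat : ℤ)

/-- `G` is toroidal: it has a rotation system of genus at most one, that is, with
`v - e + f ≥ 2 c - 2`, where `c` is the number of components and `f` the number of faces, every
isolated vertex contributing one face. -/
def IsToroidal {V : Type} (G : SimpleGraph V) : Prop :=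
  ∃ σ : Equiv.Perm G.Dart, IsRotation G σ ∧
    Nat.card G.edgeSet + 2 * Nat.card G.ConnectedComponent ≤
      Nat.card V + (Nat.card (Face G σ) + Nat.card {v : V // ∀ w, ¬ G.Adj v w}) + 2

end Pool.Agent.K3h87.Tor
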