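import Pool.Agent.K3h87.Tor.Lists

set_option autoImplicit false

/-!
The graph `GG` on 84 vertices. The vertices `cy 0 = u`, `cy 1 = v`, `cy 2 = y`, `cy 3 = z` form a
4-cycle `u y z v`, three vertices `po 0`, `po 1`, `po 2` are joined to all of them, and there are
eleven gadgets of seven vertices attached to `u` and `v`.
-/

namespace Pool.Agent.K3h87.Tor

open Finset

/-- The vertices: the cycle, the poles, and the vertices `ga i k` of the gadgets. In a gadget
`k = 0` is `w` and `k = 1, …, 6` are `x₁, y₁, z₁, x₂, y₂, z₂`. -/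
abbrev VV : Type := Fin 4 ⊕ (Fin 3 ⊕ (Fin 11 × Fin 7))

/-- cycle vertices -/
abbrev cy (i : Fin 4) : VV := Sum.inl i
/-- poles -/
abbrev po (j : Fin 3) : VV := Sum.inr (Sum.inl j)
/-- gadget vertices -/
abbrev ga (i : Fin 11) (k : Fin 7) : VV := Sum.inr (Sum.inr (i, k))

/-- adjacency on the 4-cycle `u y z v` -/
def cyc (i j : Fin 4) : Bool :=
  decide ((i, j) ∈ ([(0, 1), (1, 0), (0, 2), (2, 0), (2, 3), (3, 2), (1, 3), (3, 1)] :
    List (Fin 4 × Fin 4)))

/-- adjacency inside a gadget -/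
def inn (k l : Fin 7) : Bool :=
  decide ((k, l) ∈ ([(0, 2), (0, 3), (0, 5), (0, 6), (1, 2), (1, 3), (2, 3), (4, 5), (4, 6), (5, 6)] :
    List (Fin 7 × Fin 7)) ∨ (l, k) ∈ ([(0, 2), (0, 3), (0, 5), (0, 6), (1, 2), (1, 3), (2, 3),
    (4, 5), (4, 6), (5, 6)] : List (Fin 7 × Fin 7)))

/-- adjacency between `u`, `v` and a gadget -/
def att (i : Fin 4) (k : Fin 7) : Bool :=
  decide (i = 0 ∧ k ∈ ([0, 1, 2, 4, 5] : List (Fin 7)) ∨
    i = 1 ∧ k ∈ ([0, 1, 3, 4, 6] : List (Fin 7)))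

/-- adjacency -/
def adj : VV → VV → Bool
  | Sum.inl i, Sum.inl j => cyc i j
  | Sum.inl _, Sum.inr (Sum.inl _) => true
  | Sum.inr (Sum.inl _), Sum.inl _ => true
  | Sum.inr (Sum.inl _), Sum.inr _ => false
  | Sum.inr _, Sum.inr (Sum.inl _) => false
  | Sum.inl i, Sum.inr (Sum.inr (_, k)) => att i k
  | Sum.inr (Sum.inr (_, k)), Sum.inl i => att i k
  | Sum.inr (Sum.inr (i, k)), Sum.inr (Sum.inr (j, l)) => decide (i = j) && inn k l

theorem cyc_symm : ∀ i j, cyc i j = cyc j i := by decide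
theorem inn_symm : ∀ i j, inn i j = inn j i := by decide
theorem cyc_irrefl : ∀ i, cyc i i = false := by decide
theorem inn_irrefl : ∀ i, inn i i = false := by decide

theorem adj_symm (x y : VV) (h : adj x y = true) : adj y x = true := by
  rcases x with i | j | ⟨i, k⟩ <;> rcases y with i' | j' | ⟨i', k'⟩ <;> simp only [adj] at h ⊢
  all_goals first
    | exact h
    | (rw [cyc_symm]; exact h)
    | (rw [inn_symm, decide_eq_decide.2 (eq_comm (a := i') (b := i))]; exact h)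

/-- the graph -/
def GG : SimpleGraph VV where
  Adj x y := adj x y = true
  symm := ⟨fun x y h => adj_symm x y h⟩
  loopless := ⟨by
    intro x h
    rcases x with i | j | ⟨i, k⟩
    · simp [adj, cyc_irrefl] at h
    · simp [adj] at h
    · simp [adj, inn_irrefl] at h⟩

theorem GG_adj (x y : VV) : GG.Adj x y ↔ adj x y = true := Iff.rfl

/-- the gadget with lists `L` can be coloured if `u`, `v` have the colours `a`, `b` -/
def Ext (L : Fin 7 → Finset ℕ) (a b : ℕ) : Prop :=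
  ∃ g : Fin 7 → ℕ, (∀ k, g k ∈ L k) ∧ (∀ k l, inn k l = true → g k ≠ g l) ∧
    (∀ k, att 0 k = true → g k ≠ a) ∧ (∀ k, att 1 k = true → g k ≠ b)

theorem not_ext {L : Fin 7 → Finset ℕ} {a b : ℕ} (h : ¬ Ext L a b) (c : ℕ) (hc : c ∈ L 0)
    (ha : c ≠ a) (hb : c ≠ b) : Bad (L 1) (L 2) (L 3) a c b ∨ Bad (L 4) (L 5) (L 6) a c b := by
  by_contra hn
  rw [not_or, Bad, Bad, not_not, not_not] at hn
  obtain ⟨⟨x, hx, y, hy, z, hz, h1, h2, h3, h4, h5, h6, h7, h8, h9⟩,
    ⟨x', hx', y', hy', z', hz', k1, k2, k3, k4, k5, k6, k7, k8, k9⟩⟩ := hn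
  apply h
  refine ⟨![c, x, y, z, x', y', z'], ?_, ?_, ?_, ?_⟩
  · intro k; fin_cases k <;> assumption
  · intro k l hkl
    fin_cases k <;> fin_cases l <;> first
      | (exfalso; revert hkl; decide)
      | (simp only [Fin.mk_one, Fin.reduceFinMk, Fin.zero_eta, Fin.isValue, Matrix.cons_val];
         first | assumption | (apply Ne.symm; assumption))
  · intro k hk
    fin_cases k <;> first
      | (exfalso; revert hk; decide)
      | (simp only [Fin.mk_one, Fin.reduceFinMk, Fin.zero_eta, Fin.isValue, Matrix.cons_val];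
         first | assumption | (apply Ne.symm; assumption))
  · intro k hk
    fin_cases k <;> first
      | (exfalso; revert hk; decide)
      | (simp only [Fin.mk_one, Fin.reduceFinMk, Fin.zero_eta, Fin.isValue, Matrix.cons_val];
         first | assumption | (apply Ne.symm; assumption))

/-- both triangles of a gadget are bad -/
theorem both_bad {L : Fin 7 → Finset ℕ} (hL : ∀ k, 4 ≤ (L k).card) {a b : ℕ}
    (h : ¬ Ext L a b) : ∃ c, Bad (L 1) (L 2) (L 3) a c b := by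
  have h1 : 2 ≤ (((L 0).erase a).erase b).card := card_sdiff_pair _ a b (hL 0)
  obtain ⟨c, hc, c', hc', hne⟩ := Finset.one_lt_card.1 (show 1 < _ from h1)
  simp only [mem_erase] at hc hc'
  rcases not_ext h c hc.2.2 hc.2.1 hc.1 with h2 | h2
  · exact ⟨c, h2⟩
  · rcases not_ext h c' hc'.2.2 hc'.2.1 hc'.1 with h3 | h3
    · exact ⟨c', h3⟩
    · exact absurd (bad_unique (hL 4) (hL 5) (hL 6) h2 h3).2.1 hne

theorem ext_unique {L : Fin 7 → Finset ℕ} (hL : ∀ k, 4 ≤ (L k).card) {a b a' b' : ℕ}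
    (h : ¬ Ext L a b) (h' : ¬ Ext L a' b') : a = a' ∧ b = b' := by
  obtain ⟨c, hc⟩ := both_bad hL h
  obtain ⟨c', hc'⟩ := both_bad hL h'
  have := bad_unique (hL 1) (hL 2) (hL 3) hc hc'
  exact ⟨this.1, this.2.2⟩

theorem exists_avoid {X : Finset ℕ} (hX : 4 ≤ X.card) (a b c : ℕ) :
    ∃ t ∈ X, t ≠ a ∧ t ≠ b ∧ t ≠ c := by
  have h1 := card_sdiff_pair X a b hX
  have h2 := pred_card_le_card_erase (s := (X.erase a).erase b) (a := c)
  have h3 : (((X.erase a).erase b).erase c).Nonempty := by rw [← card_pos]; omega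
  obtain ⟨t, ht⟩ := h3
  simp only [mem_erase] at ht
  exact ⟨t, ht.2.2.2, ht.2.2.1, ht.2.1, ht.1⟩

/-- the colours of `y`, `z` such that two given poles can be coloured -/
theorem two_poles {Y Z S T : Finset ℕ} (hY : 4 ≤ Y.card) (hZ : 4 ≤ Z.card) (hS : 4 ≤ S.card)
    (hT : 4 ≤ T.card) (a b : ℕ) :
    ∃ y ∈ Y, ∃ z ∈ Z, y ≠ a ∧ z ≠ b ∧ y ≠ z ∧
      (∃ s ∈ S, s ≠ a ∧ s ≠ b ∧ s ≠ y ∧ s ≠ z) ∧ (∃ t ∈ T, t ≠ a ∧ t ≠ b ∧ t ≠ y ∧ t ≠ z) := by
  set S' := (S.erase a).erase b with hS'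
  set T' := (T.erase a).erase b with hT'
  have h1 : 2 ≤ S'.card := card_sdiff_pair S a b hS
  have h2 : 2 ≤ T'.card := card_sdiff_pair T a b hT
  have h3 : 3 ≤ (Y.erase a).card := by
    have := pred_card_le_card_erase (s := Y) (a := a); omega
  have h4 : ∃ y ∈ Y.erase a, 2 ≤ (S'.erase y).card := by
    by_cases h : 3 ≤ S'.card
    · obtain ⟨y, hy⟩ : (Y.erase a).Nonempty := by rw [← card_pos]; omega
      refine ⟨y, hy, ?_⟩
      have := pred_card_le_card_erase (s := S') (a := y); omega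
    · have h5 : ∃ y ∈ Y.erase a, y ∉ S' := by
        by_contra hn
        push Not at hn
        have := card_le_card (show Y.erase a ⊆ S' from hn)
        omega
      obtain ⟨y, hy, hyS⟩ := h5
      exact ⟨y, hy, by rw [erase_eq_of_notMem hyS]; exact h1⟩
  obtain ⟨y, hy, hyS⟩ := h4
  have h5 : (T'.erase y).Nonempty := by
    rw [← card_pos]; have := pred_card_le_card_erase (s := T') (a := y); omega
  obtain ⟨r, hr⟩ := h5
  obtain ⟨z, hz, hzb, hzy, hzr⟩ := exists_avoid hZ b y r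
  have h6 : ((S'.erase y).erase z).Nonempty := by
    rw [← card_pos]; have := pred_card_le_card_erase (s := S'.erase y) (a := z); omega
  obtain ⟨s, hs⟩ := h6
  simp only [hS', hT', mem_erase] at hs hr hy
  exact ⟨y, hy.2, z, hz, hy.1, hzb, hzy.symm,
    ⟨s, hs.2.2.2.2, hs.2.2.2.1, hs.2.2.1, hs.2.1, hs.1⟩,
    ⟨r, hr.2.2.2, hr.2.2.1, hr.2.1, hr.1, hzr.symm⟩⟩

end Pool.Agent.K3h87.Tor
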