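import Pool.Agent.K3h87.Tor.Rot
import Pool.Agent.K3h87.Tor.Graph

set_option autoImplicit false

/-!
The graph `GG` is toroidal.
-/

namespace Pool.Agent.K3h87.Tor

open SimpleGraph
open Pool.Agent.H239R2.Planar

/-- degrees -/
def dgV : VV → ℕ
  | Sum.inl i => ([60, 60, 5, 5] : List ℕ).getD i.val 0
  | Sum.inr (Sum.inl _) => 4
  | Sum.inr (Sum.inr (_, k)) => if k.val = 0 then 6 else 4

/-- gadget vertex from numbers -/
def gv (m k : ℕ) : VV := ga (Fin.ofNat 11 m) (Fin.ofNat 7 k)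

/-- local neighbours inside a gadget: `7` stands for `u` and `8` for `v` -/
def locN : List (List ℕ) :=
  [[7, 2, 3, 8, 6, 5], [8, 3, 2, 7], [0, 7, 1, 3], [0, 2, 1, 8], [7, 5, 6, 8], [4, 7, 0, 6],
    [4, 5, 0, 8]]

/-- the vertex with local name `t` in the gadget `m` -/
def locV (m t : ℕ) : VV := if t = 7 then cy 0 else if t = 8 then cy 1 else gv m t

/-- the `n`-th neighbour -/
def nbV : VV → ℕ → VV
  | Sum.inl i, n =>
    if i.val = 0 then
      if n = 0 then po 1 else if n = 1 then po 0 else if n = 2 then cy 1 else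
      if n = 58 then po 2 else if n = 59 then cy 2 else
        gv ((n - 3) / 5) (([1, 2, 0, 5, 4] : List ℕ).getD ((n - 3) % 5) 0)
    else if i.val = 1 then
      if n = 0 then po 2 else if n = 56 then cy 0 else if n = 57 then po 0 else
      if n = 58 then po 1 else if n = 59 then cy 3 else
        gv (10 - (n - 1) / 5) (([4, 6, 0, 3, 1] : List ℕ).getD ((n - 1) % 5) 0)
    else if i.val = 2 then ([po 1, po 0, cy 3, cy 0, po 2] : List VV).getD n (cy 0)
    else ([po 0, po 1, po 2, cy 1, cy 2] : List VV).getD n (cy 0)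
  | Sum.inr (Sum.inl j), n =>
    if j.val = 0 then ([cy 3, cy 2, cy 1, cy 0] : List VV).getD n (cy 0)
    else if j.val = 1 then ([cy 2, cy 3, cy 0, cy 1] : List VV).getD n (cy 0)
    else ([cy 3, cy 2, cy 0, cy 1] : List VV).getD n (cy 0)
  | Sum.inr (Sum.inr (m, k)), n => locV m.val ((locN.getD k.val []).getD n 0)

/-- the position of a neighbour -/
def posV : VV → VV → ℕ
  | Sum.inl i, Sum.inl j =>
    (([[0, 2, 59, 0], [56, 0, 0, 59], [3, 0, 0, 2], [0, 3, 4, 0]] : List (List ℕ)).getD i.val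
      []).getD j.val 0
  | Sum.inl i, Sum.inr (Sum.inl j) =>
    (([[1, 0, 58], [57, 58, 0], [1, 0, 4], [0, 1, 2]] : List (List ℕ)).getD i.val []).getD j.val 0
  | Sum.inl i, Sum.inr (Sum.inr (m, k)) =>
    if i.val = 0 then 3 + 5 * m.val + ([2, 0, 1, 0, 4, 3, 0] : List ℕ).getD k.val 0
    else 1 + 5 * (10 - m.val) + ([2, 4, 0, 3, 0, 0, 1] : List ℕ).getD k.val 0
  | Sum.inr (Sum.inl j), Sum.inl i =>
    (([[3, 2, 1, 0], [2, 3, 0, 1], [2, 3, 1, 0]] : List (List ℕ)).getD j.val []).getD i.val 0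
  | Sum.inr (Sum.inr (_, k)), Sum.inl i => (locN.getD k.val []).idxOf (7 + i.val)
  | Sum.inr (Sum.inr (_, k)), Sum.inr (Sum.inr (_, l)) => (locN.getD k.val []).idxOf l.val
  | _, _ => 0

/-- the face on the right of the gadget `m` -/
def rgt (m : ℕ) : ℕ := if m = 10 then 8 else 9 + 13 * (m + 1) + 12

/-- the face of a dart -/
def fidV : VV → VV → ℕ
  | Sum.inl i, Sum.inl j =>
    (([[0, 2, 3, 0], [21, 0, 0, 0], [0, 0, 0, 7], [0, 4, 0, 0]] : List (List ℕ)).getD i.val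
      []).getD j.val 0
  | Sum.inl i, Sum.inr (Sum.inl j) =>
    (([[1, 0, 8], [2, 5, 4], [5, 6, 3], [7, 1, 6]] : List (List ℕ)).getD i.val []).getD j.val 0
  | Sum.inr (Sum.inl j), Sum.inl i =>
    (([[2, 5, 7, 1], [1, 0, 5, 6], [3, 8, 6, 4]] : List (List ℕ)).getD j.val []).getD i.val 0
  | Sum.inl i, Sum.inr (Sum.inr (m, k)) =>
    if i.val = 0 then 9 + 13 * m.val + ([0, 12, 2, 0, 1, 3, 0] : List ℕ).getD k.val 0
    else if k.val = 4 then rgt m.val
    else 9 + 13 * m.val + ([4, 5, 0, 6, 0, 0, 7] : List ℕ).getD k.val 0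
  | Sum.inr (Sum.inr (m, k)), Sum.inl i =>
    if i.val = 1 then 9 + 13 * m.val + ([6, 12, 0, 5, 7, 0, 4] : List ℕ).getD k.val 0
    else if k.val = 4 then rgt m.val
    else 9 + 13 * m.val + ([3, 2, 0, 0, 0, 1, 0] : List ℕ).getD k.val 0
  | Sum.inr (Sum.inr (m, k)), Sum.inr (Sum.inr (_, l)) =>
    9 + 13 * m.val + (([[0, 0, 0, 9, 0, 8, 4], [0, 0, 10, 5, 0, 0, 0], [9, 2, 0, 10, 0, 0, 0],
      [6, 10, 9, 0, 0, 0, 0], [0, 0, 0, 0, 0, 1, 11], [3, 0, 0, 0, 11, 0, 8],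
      [8, 0, 0, 0, 7, 11, 0]] : List (List ℕ)).getD k.val []).getD l.val 0
  | _, _ => 0

/-- a dart of a face -/
def repV (n : ℕ) : VV × VV :=
  if n < 9 then
    ([(cy 0, po 1), (cy 0, po 0), (cy 0, cy 1), (cy 0, cy 2), (cy 1, po 2), (cy 1, po 1),
      (cy 2, po 1), (cy 2, cy 3), (cy 0, po 2)] : List (VV × VV)).getD n (cy 0, cy 1)
  else
    let m := (n - 9) / 13
    let t := ([(7, 0), (7, 4), (7, 2), (7, 5), (8, 0), (8, 1), (8, 3), (8, 6), (0, 5), (0, 3),
      (1, 2), (4, 6), (7, 1)] : List (ℕ × ℕ)).getD ((n - 9) % 13) (0, 0)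
    (locV m t.1, locV m t.2)

theorem chk1 : ∀ x y : VV, adj x y = true → posV x y < dgV x ∧ nbV x (posV x y) = y := by
  decide +kernel

theorem chk2 : ∀ x : VV, ∀ n < dgV x, adj x (nbV x n) = true ∧ posV x (nbV x n) = n := by
  decide +kernel

theorem chk3 : ∀ x y : VV, adj x y = true →
    fidV y (nbV y ((posV y x + 1) % dgV y)) = fidV x y := by
  decide +kernel

theorem chk4 : ∀ n < 152, adj (repV n).1 (repV n).2 = true ∧ fidV (repV n).1 (repV n).2 = n := by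
  decide +kernel

end Pool.Agent.K3h87.Tor
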