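import Pool.Agent.K3h87.Tor.Graph

set_option autoImplicit false

namespace Pool.Agent.K3h87.Tor

open Finset

/-- there is a pair of different colours for `u`, `v` which extends to the eleven gadgets -/
theorem exists_pair (L : VV → Finset ℕ) (hL : ∀ x, 4 ≤ (L x).card) :
    ∃ a ∈ L (cy 0), ∃ b ∈ L (cy 1), a ≠ b ∧ ∀ i : Fin 11, Ext (fun k => L (ga i k)) a b := by
  by_contra hn
  push Not at hn
  set P : Finset (ℕ × ℕ) := (L (cy 0) ×ˢ L (cy 1)).filter (fun p => p.1 ≠ p.2) with hP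
  have h1 : 12 ≤ P.card := by
    have h2 : P = (L (cy 0)).biUnion (fun a => ((L (cy 1)).erase a).image (fun b => (a, b))) := by
      ext ⟨a, b⟩
      simp only [hP, mem_filter, mem_product, mem_biUnion, mem_image, mem_erase, Prod.mk.injEq]
      constructor
      · rintro ⟨⟨h1, h2⟩, h3⟩
        exact ⟨a, h1, b, ⟨h3.symm, h2⟩, rfl, rfl⟩
      · rintro ⟨a', h1, b', ⟨h2, h3⟩, rfl, rfl⟩
        exact ⟨⟨h1, h3⟩, h2.symm⟩
    rw [h2, card_biUnion]
    · have h3 : ∀ a ∈ L (cy 0), 3 ≤ (((L (cy 1)).erase a).image (fun b => (a, b))).card := by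
        intro a _
        rw [card_image_of_injective _ (fun b b' h => (Prod.mk.inj h).2)]
        have := pred_card_le_card_erase (s := L (cy 1)) (a := a)
        have := hL (cy 1)
        omega
      have h4 := card_nsmul_le_sum _ _ 3 h3
      have := hL (cy 0)
      simp only [smul_eq_mul] at h4
      omega
    · intro a _ a' _ hne
      rw [Function.onFun, disjoint_left]
      rintro ⟨x, y⟩ hx hy
      simp only [mem_image, Prod.mk.injEq] at hx hy
      obtain ⟨_, _, h1, _⟩ := hx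
      obtain ⟨_, _, h2, _⟩ := hy
      exact hne (h1.trans h2.symm)
  have h2 : ∀ p : ℕ × ℕ, p ∈ P → ∃ i : Fin 11, ¬ Ext (fun k => L (ga i k)) p.1 p.2 := by
    rintro ⟨a, b⟩ hp
    simp only [hP, mem_filter, mem_product] at hp
    exact hn a hp.1.1 b hp.1.2 hp.2
  choose! F hF using h2
  have h3 : P.card ≤ (univ : Finset (Fin 11)).card := by
    apply card_le_card_of_injOn F (fun _ _ => mem_coe.2 (mem_univ _))
    intro p hp q hq hpq
    have e1 := hF p (mem_coe.1 hp)
    have e2 := hF q (mem_coe.1 hq)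
    rw [← hpq] at e2
    have := ext_unique (fun k => hL (ga (F p) k)) e1 e2
    exact Prod.ext this.1 this.2
  rw [card_univ, Fintype.card_fin] at h3
  omega

/-- the colours of the four cycle vertices and the three poles, one edge between a pole and
`u`, `y` or `z` being absent -/
theorem core_ext (C : Fin 4 → Finset ℕ) (Q : Fin 3 → Finset ℕ) (hC : ∀ i, 4 ≤ (C i).card)
    (hQ : ∀ j, 4 ≤ (Q j).card) (a b : ℕ) (ha : a ∈ C 0) (hb : b ∈ C 1) (hab : a ≠ b)
    (j₀ : Fin 3) (s₀ : Fin 4) :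
    ∃ (g : Fin 4 → ℕ) (t : Fin 3 → ℕ), g 0 = a ∧ g 1 = b ∧ (∀ i, g i ∈ C i) ∧ (∀ j, t j ∈ Q j) ∧
      (∀ i i', cyc i i' = true → g i ≠ g i') ∧
      ∀ i j, ¬ (j = j₀ ∧ i = s₀) → g i ≠ t j := by
  obtain ⟨j₁, j₂, h01, h02, h12, hcov⟩ : ∃ j₁ j₂ : Fin 3, j₀ ≠ j₁ ∧ j₀ ≠ j₂ ∧ j₁ ≠ j₂ ∧
      ∀ j, j = j₀ ∨ j = j₁ ∨ j = j₂ := by
    revert j₀; decide
  obtain ⟨y, hy, z, hz, hya, hzb, hyz, ⟨s, hs, hs1, hs2, hs3, hs4⟩, ⟨t, ht, ht1, ht2, ht3, ht4⟩⟩ :=
    two_poles (hC 2) (hC 3) (hQ j₁) (hQ j₂) a b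
  set g : Fin 4 → ℕ := ![a, b, y, z] with hg
  obtain ⟨r, hr, hr'⟩ : ∃ r ∈ Q j₀, ∀ i, i ≠ s₀ → g i ≠ r := by
    obtain ⟨i₁, i₂, i₃, hi⟩ : ∃ i₁ i₂ i₃ : Fin 4, ∀ i, i ≠ s₀ → i = i₁ ∨ i = i₂ ∨ i = i₃ := by
      clear hg; revert s₀; decide
    obtain ⟨r, hr, h1, h2, h3⟩ := exists_avoid (hQ j₀) (g i₁) (g i₂) (g i₃)
    refine ⟨r, hr, fun i hne => ?_⟩
    rcases hi i hne with rfl | rfl | rfl
    · exact h1.symm
    · exact h2.symm
    · exact h3.symm
  refine ⟨g, fun j => if j = j₀ then r else if j = j₁ then s else t, rfl, rfl, ?_, ?_, ?_, ?_⟩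
  · intro i; fin_cases i <;> assumption
  · intro j
    rcases hcov j with rfl | rfl | rfl
    · simpa using hr
    · simpa [h01.symm] using hs
    · simpa [h02.symm, h12.symm] using ht
  · intro i i' h
    have e0 : g 0 = a := rfl
    have e1 : g 1 = b := rfl
    have e2 : g 2 = y := rfl
    have e3 : g 3 = z := rfl
    fin_cases i <;> fin_cases i' <;> first
      | (exfalso; revert h; decide)
      | (simp only [Fin.mk_one, Fin.reduceFinMk, Fin.zero_eta, Fin.isValue, e0, e1, e2, e3];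
         first | assumption | (apply Ne.symm; assumption))
  · intro i j hij
    rcases hcov j with rfl | rfl | rfl
    · simp only [if_true]
      exact hr' i (fun h => hij ⟨rfl, h⟩)
    · simp only [h01.symm, if_false, if_true]
      fin_cases i
      · exact hs1.symm
      · exact hs2.symm
      · exact hs3.symm
      · exact hs4.symm
    · simp only [h02.symm, h12.symm, if_false]
      fin_cases i
      · exact ht1.symm
      · exact ht2.symm
      · exact ht3.symm
      · exact ht4.symm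

/-- **the graph without one edge between a pole and a cycle vertex is 4-choosable** -/
theorem four (A : VV → VV → Prop) (hA : ∀ x y, A x y → GG.Adj x y) (hs : ∀ x y, A x y → A y x)
    (j₀ : Fin 3) (s₀ : Fin 4) (hmiss : ¬ A (po j₀) (cy s₀)) (L : VV → Finset ℕ)
    (hL : ∀ x, 4 ≤ (L x).card) :
    ∃ c : VV → ℕ, (∀ x, c x ∈ L x) ∧ ∀ x y, A x y → c x ≠ c y := by
  obtain ⟨a, ha, b, hb, hab, hext⟩ := exists_pair L hL
  choose G hG1 hG2 hG3 hG4 using hext
  obtain ⟨g, t, hg0, hg1, hg, ht, hgg, hgt⟩ := core_ext (fun i => L (cy i)) (fun j => L (po j))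
    (fun i => hL _) (fun j => hL _) a b ha hb hab j₀ s₀
  set c : VV → ℕ := Sum.elim g (Sum.elim t (fun p => G p.1 p.2)) with hc
  have hgatt : ∀ (i : Fin 4) (m : Fin 11) (k : Fin 7), att i k = true → g i ≠ G m k := by
    intro i m k h
    fin_cases i
    · change g 0 ≠ _
      rw [hg0]; exact (hG3 m k h).symm
    · change g 1 ≠ _
      rw [hg1]; exact (hG4 m k h).symm
    · exfalso; revert h; simp [att]
    · exfalso; revert h; simp [att]
  refine ⟨c, ?_, ?_⟩
  · rintro (i | j | ⟨i, k⟩)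
    · exact hg i
    · exact ht j
    · exact hG1 i k
  · intro x y hxy
    have h := hA x y hxy
    rw [GG_adj] at h
    rcases x with i | j | ⟨i, k⟩ <;> rcases y with i' | j' | ⟨i', k'⟩ <;> simp only [adj] at h
    · exact hgg i i' h
    · refine hgt i j' ?_
      rintro ⟨rfl, rfl⟩
      exact hmiss (hs _ _ hxy)
    · exact hgatt i i' k' h
    · refine (hgt i' j ?_).symm
      rintro ⟨rfl, rfl⟩
      exact hmiss hxy
    · cases h
    · cases h
    · exact (hgatt i' i k h).symm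
    · cases h
    · rw [Bool.and_eq_true, decide_eq_true_eq] at h
      obtain ⟨rfl, h2⟩ := h
      exact hG2 i k k' h2

end Pool.Agent.K3h87.Tor
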