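import Pool.Agent.K3h87.Tor.Defs

set_option autoImplicit false

namespace Pool.Agent.K3h87.Tor

open Finset

theorem pair_sdr (B C : Finset ℕ) (hB : B.Nonempty) (hC : C.Nonempty) :
    (∃ y ∈ B, ∃ z ∈ C, y ≠ z) ∨ ∃ r, B = {r} ∧ C = {r} := by
  by_cases h : ∃ y ∈ B, ∃ z ∈ C, y ≠ z
  · exact Or.inl h
  · right
    push Not at h
    obtain ⟨r, hr⟩ := hC
    refine ⟨r, ?_, ?_⟩
    · ext x
      simp only [mem_singleton]
      constructor
      · intro hx; exact h x hx r hr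
      · rintro rfl
        obtain ⟨y, hy⟩ := hB
        rw [← h y hy x hr]; exact hy
    · obtain ⟨y, hy⟩ := hB
      ext x
      simp only [mem_singleton]
      constructor
      · intro hx; rw [← h y hy x hx, h y hy r hr]
      · rintro rfl; exact hr

theorem tri_sdr (A B C : Finset ℕ) (hA : 2 ≤ A.card) (hB : 2 ≤ B.card) (hC : 2 ≤ C.card) :
    (∃ x ∈ A, ∃ y ∈ B, ∃ z ∈ C, x ≠ y ∧ y ≠ z ∧ x ≠ z) ∨ (A = B ∧ A = C ∧ A.card = 2) := by
  by_cases h : ∃ x ∈ A, ∃ y ∈ B, ∃ z ∈ C, x ≠ y ∧ y ≠ z ∧ x ≠ z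
  · exact Or.inl h
  · right
    push Not at h
    have key : ∀ x ∈ A, ∃ r, B.erase x = {r} ∧ C.erase x = {r} := by
      intro x hx
      have h1 : (B.erase x).Nonempty := by
        rw [← card_pos]; have := pred_card_le_card_erase (s := B) (a := x); omega
      have h2 : (C.erase x).Nonempty := by
        rw [← card_pos]; have := pred_card_le_card_erase (s := C) (a := x); omega
      rcases pair_sdr _ _ h1 h2 with ⟨y, hy, z, hz, hyz⟩ | h3
      · exfalso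
        rw [mem_erase] at hy hz
        exact hz.1 (h x hx y hy.2 z hz.2 hy.1.symm hyz).symm
      · exact h3
    have kB : ∀ x ∈ A, ∃ r, B = {x, r} ∧ C = {x, r} ∧ x ≠ r := by
      intro x hx
      obtain ⟨r, h1, h2⟩ := key x hx
      have hxB : x ∈ B := by
        by_contra hn
        rw [erase_eq_of_notMem hn] at h1
        rw [h1] at hB; simp at hB
      have hxC : x ∈ C := by
        by_contra hn
        rw [erase_eq_of_notMem hn] at h2
        rw [h2] at hC; simp at hC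
      refine ⟨r, ?_, ?_, ?_⟩
      · rw [← insert_erase hxB, h1]
      · rw [← insert_erase hxC, h2]
      · have : r ∈ B.erase x := by rw [h1]; simp
        exact (mem_erase.1 this).1.symm
    have hne : A.Nonempty := by rw [← card_pos]; omega
    obtain ⟨x, hx⟩ := hne
    obtain ⟨r, hB', hC', hxr⟩ := kB x hx
    have hBc : B.card = 2 := by rw [hB']; exact card_pair hxr
    have hAB : A ⊆ B := by
      intro x' hx'
      obtain ⟨r', h1, _, _⟩ := kB x' hx'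
      rw [h1]; simp
    have hABe : A = B := eq_of_subset_of_card_le hAB (by omega)
    exact ⟨hABe, by rw [hABe, hB', hC'], by rw [hABe, hBc]⟩

/-- the triangle `x y z` cannot be coloured if `u = a`, `w = c`, `v = b` -/
def Bad (X Y Z : Finset ℕ) (a c b : ℕ) : Prop :=
  ¬ ∃ x ∈ X, ∃ y ∈ Y, ∃ z ∈ Z, x ≠ y ∧ y ≠ z ∧ x ≠ z ∧ x ≠ a ∧ x ≠ b ∧ y ≠ a ∧ y ≠ c ∧ z ≠ b ∧ z ≠ c

theorem card_sdiff_pair (X : Finset ℕ) (a b : ℕ) (hX : 4 ≤ X.card) :
    2 ≤ ((X.erase a).erase b).card := by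
  have h1 := pred_card_le_card_erase (s := X) (a := a)
  have h2 := pred_card_le_card_erase (s := X.erase a) (a := b)
  omega

theorem two_erase {X : Finset ℕ} {a b : ℕ} (hX : 4 ≤ X.card)
    (h : ((X.erase a).erase b).card = 2) : a ∈ X ∧ b ∈ X ∧ a ≠ b := by
  have h2 := pred_card_le_card_erase (s := X.erase a) (a := b)
  have ha : a ∈ X := by
    by_contra hn
    rw [erase_eq_of_notMem hn] at h
    have := pred_card_le_card_erase (s := X) (a := b)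
    omega
  have hb : b ∈ X.erase a := by
    by_contra hn
    rw [erase_eq_of_notMem hn] at h
    have := pred_card_le_card_erase (s := X) (a := a)
    omega
  exact ⟨ha, (mem_erase.1 hb).2, (mem_erase.1 hb).1.symm⟩

theorem bad_struct {X Y Z : Finset ℕ} {a c b : ℕ} (hX : 4 ≤ X.card) (hY : 4 ≤ Y.card)
    (hZ : 4 ≤ Z.card) (h : Bad X Y Z a c b) :
    (a ∈ X ∧ b ∈ X ∧ a ∈ Y ∧ c ∈ Y ∧ b ∈ Z ∧ c ∈ Z ∧ a ≠ b ∧ a ≠ c ∧ b ≠ c) ∧
    ∀ s, ((s ∈ X ∧ s ≠ a ∧ s ≠ b) ↔ (s ∈ Y ∧ s ≠ a ∧ s ≠ c)) ∧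
      ((s ∈ X ∧ s ≠ a ∧ s ≠ b) ↔ (s ∈ Z ∧ s ≠ b ∧ s ≠ c)) := by
  rcases tri_sdr ((X.erase a).erase b) ((Y.erase a).erase c) ((Z.erase b).erase c)
    (card_sdiff_pair X a b hX) (card_sdiff_pair Y a c hY) (card_sdiff_pair Z b c hZ) with
    ⟨x, hx, y, hy, z, hz, h1, h2, h3⟩ | ⟨h1, h2, h3⟩
  · exfalso
    simp only [mem_erase] at hx hy hz
    exact h ⟨x, hx.2.2, y, hy.2.2, z, hz.2.2, h1, h2, h3, hx.2.1, hx.1, hy.2.1, hy.1, hz.2.1, hz.1⟩
  · obtain ⟨a1, a2, a3⟩ := two_erase hX h3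
    obtain ⟨b1, b2, b3⟩ := two_erase hY (by rw [← h1]; exact h3)
    obtain ⟨c1, c2, c3⟩ := two_erase hZ (by rw [← h2]; exact h3)
    refine ⟨⟨a1, a2, b1, b2, c1, c2, a3, b3, c3⟩, fun s => ⟨?_, ?_⟩⟩
    · have := Finset.ext_iff.1 h1 s
      simp only [mem_erase] at this
      tauto
    · have := Finset.ext_iff.1 h2 s
      simp only [mem_erase] at this
      tauto

theorem bad_unique {X Y Z : Finset ℕ} {a c b a' c' b' : ℕ} (hX : 4 ≤ X.card) (hY : 4 ≤ Y.card)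
    (hZ : 4 ≤ Z.card) (h : Bad X Y Z a c b) (h' : Bad X Y Z a' c' b') :
    a = a' ∧ c = c' ∧ b = b' := by
  obtain ⟨⟨h1, h2, h3, h4, h5, h6, h7, h8, h9⟩, hs⟩ := bad_struct hX hY hZ h
  obtain ⟨⟨k1, k2, k3, k4, k5, k6, k7, k8, k9⟩, ks⟩ := bad_struct hX hY hZ h'
  have ha : a ∉ Z := fun hn => by
    have := ((hs a).2).2 ⟨hn, h7, h8⟩
    exact this.2.1 rfl
  have hb : b ∉ Y := fun hn => by
    have := ((hs b).1).2 ⟨hn, h7.symm, h9⟩
    exact this.2.2 rfl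
  have hc : c ∉ X := fun hn => by
    have := ((hs c).1).1 ⟨hn, h8.symm, h9.symm⟩
    exact this.2.2 rfl
  refine ⟨?_, ?_, ?_⟩
  · by_contra hne
    have hab : a ≠ b' := fun e => ha (e ▸ k5)
    exact ha (((ks a).2).1 ⟨h1, hne, hab⟩).1
  · by_contra hne
    have hcb : c ≠ b' := fun e => hc (e ▸ k2)
    exact hc (((ks c).2).2 ⟨h6, hcb, hne⟩).1
  · by_contra hne
    have hba : b ≠ a' := fun e => hb (e ▸ k3)
    exact hb (((ks b).1).1 ⟨h2, hba, hne⟩).1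

end Pool.Agent.K3h87.Tor
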