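import Pool.Agent.K3h87.Tor.Sparse

set_option autoImplicit false

/-!
Planar graphs contain no `K_{3,3}`, and planar graphs with a 2-colouring are 3-choosable.
-/

namespace Pool.Agent.K3h87.Tor

open SimpleGraph
open Pool.Agent.H239R2.Planar

open Classical in
/-- a planar graph contains no complete bipartite graph on three and three vertices -/
theorem no_K33 {V : Type} [Fintype V] (G : SimpleGraph V) (hG : IsPlanar G) (p q : Fin 3 → V)
    (hp : Function.Injective p) (hq : Function.Injective q) (hadj : ∀ i j, G.Adj (p i) (q j))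
    (hpq : ∀ i j, p i ≠ q j) : False := by
  set A : Finset (Sym2 V) := Finset.univ.image (fun ij : Fin 3 × Fin 3 => s(p ij.1, q ij.2)) with hA
  have hcard : A.card = 9 := by
    rw [hA, Finset.card_image_of_injective]
    · simp
    · rintro ⟨i, j⟩ ⟨i', j'⟩ h
      simp only [Sym2.eq_iff] at h
      rcases h with ⟨h1, h2⟩ | ⟨h1, _⟩
      · exact Prod.ext (hp h1) (hq h2)
      · exact absurd h1 (hpq i j')
  have hAG : (A : Set (Sym2 V)) ⊆ G.edgeSet := by
    intro e he
    simp only [hA, Finset.coe_image, Finset.coe_univ, Set.image_univ, Set.mem_range] at he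
    obtain ⟨ij, rfl⟩ := he
    exact hadj ij.1 ij.2
  have hrk : rk A ≤ 5 := by
    set w : Fin 5 → (V → ℚ) := ![Pi.single (p 0) 1 - Pi.single (q 0) 1,
      Pi.single (p 1) 1 - Pi.single (q 0) 1, Pi.single (p 2) 1 - Pi.single (q 0) 1,
      Pi.single (q 1) 1 - Pi.single (q 0) 1, Pi.single (q 2) 1 - Pi.single (q 0) 1] with hw
    have hP : ∀ i, (Pi.single (p i) 1 - Pi.single (q 0) 1 : V → ℚ) ∈
        Submodule.span ℚ (Set.range w) := by
      intro i
      apply Submodule.subset_span
      fin_cases i
      · exact ⟨0, rfl⟩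
      · exact ⟨1, rfl⟩
      · exact ⟨2, rfl⟩
    have hQ : ∀ j, (Pi.single (q j) 1 - Pi.single (q 0) 1 : V → ℚ) ∈
        Submodule.span ℚ (Set.range w) := by
      intro j
      fin_cases j
      · simp
      · exact Submodule.subset_span ⟨3, rfl⟩
      · exact Submodule.subset_span ⟨4, rfl⟩
    have hle : Submodule.span ℚ {x : V → ℚ | ∃ u v : V, s(u, v) ∈ A ∧
        x = Pi.single u 1 - Pi.single v 1} ≤ Submodule.span ℚ (Set.range w) := by
      rw [Submodule.span_le]
      rintro x ⟨u, v, huv, rfl⟩
      rw [hA, Finset.mem_image] at huv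
      obtain ⟨⟨i, j⟩, _, h⟩ := huv
      simp only [Sym2.eq_iff] at h
      rcases h with ⟨rfl, rfl⟩ | ⟨rfl, rfl⟩
      · have := Submodule.sub_mem _ (hP i) (hQ j)
        have e : (Pi.single (p i) 1 - Pi.single (q 0) 1 - (Pi.single (q j) 1 - Pi.single (q 0) 1) :
          V → ℚ) = Pi.single (p i) 1 - Pi.single (q j) 1 := by abel
        rw [e] at this
        exact this
      · have := Submodule.sub_mem _ (hQ j) (hP i)
        have e : (Pi.single (q j) 1 - Pi.single (q 0) 1 - (Pi.single (p i) 1 - Pi.single (q 0) 1) :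
          V → ℚ) = Pi.single (q j) 1 - Pi.single (p i) 1 := by abel
        rw [e] at this
        exact this
    calc rk A ≤ Module.finrank ℚ (Submodule.span ℚ (Set.range w)) := Submodule.finrank_mono hle
      _ ≤ Fintype.card (Fin 5) := finrank_range_le_card w
      _ = 5 := by simp
  have hbip : ∀ u v, s(u, v) ∈ A → decide (∃ i, u = p i) ≠ decide (∃ i, v = p i) := by
    intro u v huv
    rw [hA, Finset.mem_image] at huv
    obtain ⟨⟨i, j⟩, _, h⟩ := huv
    simp only [Sym2.eq_iff] at h
    rcases h with ⟨rfl, rfl⟩ | ⟨rfl, rfl⟩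
    · have h1 : ∃ i', p i = p i' := ⟨i, rfl⟩
      have h2 : ¬ ∃ i', q j = p i' := by rintro ⟨i', h⟩; exact hpq i' j h.symm
      simp [h1, h2]
    · have h1 : ∃ i', p i = p i' := ⟨i, rfl⟩
      have h2 : ¬ ∃ i', q j = p i' := by rintro ⟨i', h⟩; exact hpq i' j h.symm
      simp [h1, h2]
  have := planar_sub_sparse G hG 2 A hAG (even_bip A _ hbip)
  omega

/-! ### kernels -/

/-- a finite digraph whose arcs join the two classes of a 2-colouring has a kernel -/
theorem exists_kernel {V : Type} [DecidableEq V] (R : V → V → Prop) (f : V → Bool)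
    (hf : ∀ u v, R u v → f u ≠ f v) (n : ℕ) : ∀ S : Finset V, S.card = n →
    ∃ N ⊆ S, (∀ u ∈ N, ∀ v ∈ N, ¬ R u v) ∧ ∀ v ∈ S, v ∉ N → ∃ w ∈ N, R v w := by
  classical
  induction n using Nat.strong_induction_on with
  | _ n ih =>
    intro S hS
    by_cases h : ∃ s ∈ S, f s = true ∧ ∀ w ∈ S, ¬ R s w
    · obtain ⟨s, hs, hfs, hsink⟩ := h
      set S' := (S.erase s).filter (fun v => ¬ R v s) with hS'
      have hlt : S'.card < n := by
        calc S'.card ≤ (S.erase s).card := Finset.card_filter_le _ _
          _ < S.card := Finset.card_erase_lt_of_mem hs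
          _ = n := hS
      obtain ⟨N, hN, h1, h2⟩ := ih S'.card hlt S' rfl
      refine ⟨insert s N, ?_, ?_, ?_⟩
      · intro x hx
        rcases Finset.mem_insert.1 hx with rfl | hx
        · exact hs
        · exact Finset.mem_of_mem_erase (Finset.mem_filter.1 (hN hx)).1
      · intro u hu v hv huv
        rcases Finset.mem_insert.1 hu with hu' | hu' <;> rcases Finset.mem_insert.1 hv with hv' | hv'
        · rw [hu', hv'] at huv; exact hf _ _ huv rfl
        · rw [hu'] at huv
          exact hsink v (Finset.mem_of_mem_erase (Finset.mem_filter.1 (hN hv')).1) huv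
        · rw [hv'] at huv
          exact (Finset.mem_filter.1 (hN hu')).2 huv
        · exact h1 u hu' v hv' huv
      · intro v hv hvN
        rw [Finset.mem_insert, not_or] at hvN
        by_cases hvs : R v s
        · exact ⟨s, Finset.mem_insert_self _ _, hvs⟩
        · obtain ⟨w, hw, hvw⟩ := h2 v (Finset.mem_filter.2 ⟨Finset.mem_erase.2 ⟨hvN.1, hv⟩, hvs⟩)
            hvN.2
          exact ⟨w, Finset.mem_insert_of_mem hw, hvw⟩
    · push Not at h
      refine ⟨S.filter (fun v => f v = false), Finset.filter_subset _ _, ?_, ?_⟩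
      · intro u hu v hv huv
        rw [Finset.mem_filter] at hu hv
        exact hf u v huv (hu.2.trans hv.2.symm)
      · intro v hv hvN
        have hfv : f v = true := by
          by_contra hne
          exact hvN (Finset.mem_filter.2 ⟨hv, by simpa using hne⟩)
        obtain ⟨w, hw, hvw⟩ := h v hv hfv
        refine ⟨w, Finset.mem_filter.2 ⟨hw, ?_⟩, hvw⟩
        have := hf v w hvw
        rw [hfv] at this
        simpa using this.symm

/-- list colourings from orientations of graphs with a 2-colouring -/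
theorem kernel_colour {V : Type} [DecidableEq V] (R : V → V → Prop) [DecidableRel R] (f : V → Bool)
    (hf : ∀ u v, R u v → f u ≠ f v) (n : ℕ) : ∀ (S : Finset V) (L : V → Finset ℕ), S.card = n →
    (∀ v ∈ S, (S.filter (fun w => R v w)).card < (L v).card) →
    ∃ c : V → ℕ, (∀ v ∈ S, c v ∈ L v) ∧ ∀ u ∈ S, ∀ v ∈ S, R u v → c u ≠ c v := by
  classical
  induction n using Nat.strong_induction_on with
  | _ n ih =>
    intro S L hS hL
    rcases S.eq_empty_or_nonempty with rfl | ⟨v₀, hv₀⟩
    · exact ⟨fun _ => 0, by simp, by simp⟩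
    · have h0 : (L v₀).Nonempty := by
        rw [← Finset.card_pos]; exact lt_of_le_of_lt (Nat.zero_le _) (hL v₀ hv₀)
      obtain ⟨k, hk⟩ := h0
      set T := S.filter (fun v => k ∈ L v) with hT
      obtain ⟨N, hNT, hN1, hN2⟩ := exists_kernel R f hf _ T rfl
      have hNS : N ⊆ S := hNT.trans (Finset.filter_subset _ _)
      have hNne : N.Nonempty := by
        by_cases hv : v₀ ∈ N
        · exact ⟨v₀, hv⟩
        · obtain ⟨w, hw, _⟩ := hN2 v₀ (Finset.mem_filter.2 ⟨hv₀, hk⟩) hv
          exact ⟨w, hw⟩
      have hlt : (S \ N).card < n := by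
        rw [← hS]
        apply Finset.card_lt_card
        refine ⟨Finset.sdiff_subset, fun h => ?_⟩
        obtain ⟨w, hw⟩ := hNne
        exact (Finset.mem_sdiff.1 (h (hNS hw))).2 hw
      obtain ⟨c, hc1, hc2⟩ := ih _ hlt (S \ N) (fun v => (L v).erase k) rfl (by
        intro v hv
        rw [Finset.mem_sdiff] at hv
        have hsub : (S \ N).filter (fun w => R v w) ⊆ S.filter (fun w => R v w) :=
          Finset.filter_subset_filter _ Finset.sdiff_subset
        by_cases hkv : k ∈ L v
        · obtain ⟨w, hw, hvw⟩ := hN2 v (Finset.mem_filter.2 ⟨hv.1, hkv⟩) hv.2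
          have h1 : ((S \ N).filter (fun w => R v w)).card < (S.filter (fun w => R v w)).card := by
            apply Finset.card_lt_card
            refine ⟨hsub, fun h => ?_⟩
            have := h (Finset.mem_filter.2 ⟨hNS hw, hvw⟩)
            exact (Finset.mem_sdiff.1 (Finset.mem_filter.1 this).1).2 hw
          have h2 := hL v hv.1
          rw [Finset.card_erase_of_mem hkv]
          omega
        · rw [Finset.erase_eq_of_notMem hkv]
          exact lt_of_le_of_lt (Finset.card_le_card hsub) (hL v hv.1))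
      refine ⟨fun v => if v ∈ N then k else c v, ?_, ?_⟩
      · intro v hv
        by_cases hvN : v ∈ N
        · simp only [hvN, if_true]
          exact (Finset.mem_filter.1 (hNT hvN)).2
        · simp only [hvN, if_false]
          exact Finset.mem_of_mem_erase (hc1 v (Finset.mem_sdiff.2 ⟨hv, hvN⟩))
      · intro u hu v hv huv
        by_cases huN : u ∈ N <;> by_cases hvN : v ∈ N
        · exact absurd huv (hN1 u huN v hvN)
        · simp only [huN, hvN, if_true, if_false]
          exact (Finset.ne_of_mem_erase (hc1 v (Finset.mem_sdiff.2 ⟨hv, hvN⟩))).symm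
        · simp only [huN, hvN, if_true, if_false]
          exact Finset.ne_of_mem_erase (hc1 u (Finset.mem_sdiff.2 ⟨hu, huN⟩))
        · simp only [huN, hvN, if_false]
          exact hc2 u (Finset.mem_sdiff.2 ⟨hu, huN⟩) v (Finset.mem_sdiff.2 ⟨hv, hvN⟩) huv

end Pool.Agent.K3h87.Tor
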