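import Pool.Agent.K3h87.Tor.Defs

set_option autoImplicit false

/-!
Rotation systems given by tables.
-/

namespace Pool.Agent.K3h87.Tor

open SimpleGraph
open Pool.Agent.H239R2.Planar

/-- a rotation system given by the position of a neighbour in the list of the neighbours -/
structure Table {V : Type} (G : SimpleGraph V) where
  /-- degree -/
  dg : V → ℕ
  /-- the `n`-th neighbour -/
  nb : V → ℕ → V
  /-- the position of a neighbour -/
  pos : V → V → ℕ
  pos_lt : ∀ x y, G.Adj x y → pos x y < dg x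
  nb_pos : ∀ x y, G.Adj x y → nb x (pos x y) = y
  adj_nb : ∀ x n, n < dg x → G.Adj x (nb x n)
  pos_nb : ∀ x n, n < dg x → pos x (nb x n) = n

namespace Table

variable {V : Type} {G : SimpleGraph V} (T : Table G)

theorem mod_lt (x : V) (n : ℕ) (d : G.Dart) (hd : d.fst = x) : n % T.dg x < T.dg x :=
  Nat.mod_lt _ (lt_of_le_of_lt (Nat.zero_le _) (hd ▸ T.pos_lt d.fst d.snd d.adj))

/-- the dart at the tail of `d` whose position is that of `d` plus `k` -/
def shift (k : ℕ) (d : G.Dart) : G.Dart :=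
  ⟨(d.fst, T.nb d.fst ((T.pos d.fst d.snd + k) % T.dg d.fst)),
    T.adj_nb _ _ (T.mod_lt d.fst _ d rfl)⟩

@[simp] theorem shift_fst (k : ℕ) (d : G.Dart) : (T.shift k d).fst = d.fst := rfl

theorem pos_shift (k : ℕ) (d : G.Dart) : T.pos d.fst (T.shift k d).snd =
    (T.pos d.fst d.snd + k) % T.dg d.fst :=
  T.pos_nb _ _ (T.mod_lt d.fst _ d rfl)

theorem dart_ext {d d' : G.Dart} (h1 : d.fst = d'.fst)
    (h2 : T.pos d.fst d.snd = T.pos d.fst d'.snd) : d = d' := by
  apply Dart.ext
  refine Prod.ext h1 ?_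
  have e1 := T.nb_pos d.fst d.snd d.adj
  have e2 : T.nb d.fst (T.pos d.fst d'.snd) = d'.snd := by
    have := T.nb_pos d'.fst d'.snd d'.adj
    rwa [← h1] at this
  rw [h2] at e1
  exact e1.symm.trans e2

theorem shift_shift (j k : ℕ) (d : G.Dart) : T.shift j (T.shift k d) = T.shift (k + j) d := by
  refine T.dart_ext (by rfl) ?_
  have e1 : T.pos (T.shift j (T.shift k d)).fst (T.shift j (T.shift k d)).snd =
      (T.pos d.fst (T.shift k d).snd + j) % T.dg d.fst := T.pos_shift j (T.shift k d)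
  have e2 : T.pos (T.shift j (T.shift k d)).fst (T.shift (k + j) d).snd =
      (T.pos d.fst d.snd + (k + j)) % T.dg d.fst := T.pos_shift (k + j) d
  rw [e1, e2, T.pos_shift, Nat.mod_add_mod, add_assoc]

theorem shift_dg (d : G.Dart) : T.shift (T.dg d.fst) d = d := by
  refine T.dart_ext (by rfl) ?_
  have e1 : T.pos (T.shift (T.dg d.fst) d).fst (T.shift (T.dg d.fst) d).snd =
      (T.pos d.fst d.snd + T.dg d.fst) % T.dg d.fst := T.pos_shift (T.dg d.fst) d
  rw [e1, Nat.add_mod_right, Nat.mod_eq_of_lt (T.pos_lt _ _ d.adj)]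
  rfl

theorem dg_pos (d : G.Dart) : 0 < T.dg d.fst :=
  lt_of_le_of_lt (Nat.zero_le _) (T.pos_lt d.fst d.snd d.adj)

/-- the rotation -/
def rot : Equiv.Perm G.Dart where
  toFun d := T.shift 1 d
  invFun d := T.shift (T.dg d.fst - 1) d
  left_inv d := by
    show T.shift (T.dg (T.shift 1 d).fst - 1) (T.shift 1 d) = d
    rw [T.shift_shift, shift_fst]
    have := T.dg_pos d
    rw [show 1 + (T.dg d.fst - 1) = T.dg d.fst by omega, T.shift_dg]
  right_inv d := by
    show T.shift 1 (T.shift (T.dg d.fst - 1) d) = d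
    rw [T.shift_shift]
    have := T.dg_pos d
    rw [show T.dg d.fst - 1 + 1 = T.dg d.fst by omega, T.shift_dg]

theorem rot_pow (k : ℕ) (d : G.Dart) : (T.rot ^ k) d = T.shift k d := by
  induction k with
  | zero =>
    rw [pow_zero, Equiv.Perm.one_apply]
    symm
    refine T.dart_ext (by rfl) ?_
    have e1 : T.pos (T.shift 0 d).fst (T.shift 0 d).snd =
      (T.pos d.fst d.snd + 0) % T.dg d.fst := T.pos_shift 0 d
    rw [e1, add_zero, Nat.mod_eq_of_lt (T.pos_lt _ _ d.adj)]
    rfl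
  | succ k ih =>
    rw [pow_succ', Equiv.Perm.mul_apply, ih]
    exact T.shift_shift 1 k d

theorem isRotation : IsRotation G T.rot := by
  refine ⟨fun d => rfl, fun d d' h => ?_⟩
  refine ⟨((T.pos d.fst d'.snd + T.dg d.fst - T.pos d.fst d.snd : ℕ) : ℤ), ?_⟩
  rw [zpow_natCast, T.rot_pow]
  refine T.dart_ext (by exact h) ?_
  have e1 : T.pos (T.shift (T.pos d.fst d'.snd + T.dg d.fst - T.pos d.fst d.snd) d).fst
      (T.shift (T.pos d.fst d'.snd + T.dg d.fst - T.pos d.fst d.snd) d).snd =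
      (T.pos d.fst d.snd + (T.pos d.fst d'.snd + T.dg d.fst - T.pos d.fst d.snd)) % T.dg d.fst :=
    T.pos_shift _ d
  rw [e1]
  have h1 := T.pos_lt d.fst d.snd d.adj
  have h2 : T.pos d.fst d'.snd < T.dg d.fst := by
    have := T.pos_lt d'.fst d'.snd d'.adj
    rwa [← h] at this
  rw [show T.pos d.fst d.snd + (T.pos d.fst d'.snd + T.dg d.fst - T.pos d.fst d.snd) =
    T.pos d.fst d'.snd + T.dg d.fst by omega, Nat.add_mod_right, Nat.mod_eq_of_lt h2]
  rfl

/-- lower bound for the number of faces -/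
theorem le_card_face [Finite V] (N : ℕ) (fid : V → V → ℕ)
    (hf : ∀ x y, G.Adj x y → fid y (T.nb y ((T.pos y x + 1) % T.dg y)) = fid x y)
    (rep : ℕ → V × V) (hrep : ∀ n < N, G.Adj (rep n).1 (rep n).2)
    (hid : ∀ n < N, fid (rep n).1 (rep n).2 = n) : N ≤ Nat.card (Face G T.rot) := by
  classical
  have : Finite G.Dart := Finite.of_injective _ (Dart.toProd_injective (G := G))
  have hinv : ∀ d : G.Dart, fid (facePerm G T.rot d).fst (facePerm G T.rot d).snd =
      fid d.fst d.snd := fun d => hf d.fst d.snd d.adj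
  have hinv' : ∀ (k : ℕ) (d : G.Dart), fid ((facePerm G T.rot ^ k) d).fst
      ((facePerm G T.rot ^ k) d).snd = fid d.fst d.snd := by
    intro k d
    induction k with
    | zero => rfl
    | succ k ih => rw [pow_succ', Equiv.Perm.mul_apply, hinv, ih]
  have hsame : ∀ d d' : G.Dart, (facePerm G T.rot).SameCycle d d' →
      fid d.fst d.snd = fid d'.fst d'.snd := by
    intro d d' h
    obtain ⟨k, hk⟩ := h.exists_nat_pow_eq
    rw [← hk, hinv']
  have : N = Nat.card (Fin N) := by simp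
  rw [this]
  apply Nat.card_le_card_of_injective
    (fun n : Fin N => (Quotient.mk _ (⟨rep n.val, hrep n.val n.isLt⟩ : G.Dart) : Face G T.rot))
  intro n m h
  have h1 := hsame _ _ (Quotient.exact h)
  have h2 : fid (rep n.val).1 (rep n.val).2 = fid (rep m.val).1 (rep m.val).2 := h1
  rw [hid _ n.isLt, hid _ m.isLt] at h2
  exact Fin.ext h2

theorem card_dart [Fintype V] : Nat.card G.Dart = ∑ x : V, T.dg x := by
  have e : G.Dart ≃ Σ x : V, Fin (T.dg x) :=
    { toFun := fun d => ⟨d.fst, ⟨T.pos d.fst d.snd, T.pos_lt _ _ d.adj⟩⟩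
      invFun := fun p => ⟨(p.1, T.nb p.1 p.2.val), T.adj_nb _ _ p.2.isLt⟩
      left_inv := fun d => by
        apply Dart.ext
        exact Prod.ext rfl (T.nb_pos _ _ d.adj)
      right_inv := fun p => by
        obtain ⟨x, n⟩ := p
        refine Sigma.ext rfl (heq_of_eq ?_)
        exact Fin.ext (T.pos_nb x n.val n.isLt) }
  rw [Nat.card_congr e, Nat.card_sigma]
  simp

end Table

end Pool.Agent.K3h87.Tor
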