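import Pool.Agent.K3h87.Tor.Defs
import Pool.Agent.Y366.PG.Edge

set_option autoImplicit false

/-!
Sparsity of subgraphs of planar graphs: the girth of the subgraph counts.
-/

namespace Pool.Agent.K3h87.Tor

open SimpleGraph
open Pool.Agent.H239R2.Planar Pool.Agent.Y366.PG

open Classical in
/-- `planar_sparse_strong` with the girth condition for the subgraph only -/
theorem planar_sub_sparse {V : Type} [Fintype V] (G : SimpleGraph V) (hG : IsPlanar G) (m : ℕ)
    (A : Finset (Sym2 V)) (hA : (A : Set (Sym2 V)) ⊆ G.edgeSet)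
    (hm : ∀ B ⊆ A, B.Nonempty → (∀ v, Even (B.filter (fun e => v ∈ e)).card) → 2 * m ≤ B.card) :
    A.card ≤ rk A ∨ m * (A.card + 1) ≤ m * rk A + A.card := by
  obtain ⟨σ, hσ, heu⟩ := hG
  -- the cycles supported on `A`
  set L := (bdry G).comp (ext0 G A) with hL
  have h1 := LinearMap.finrank_range_add_finrank_ker L
  rw [Module.finrank_fintype_fun_eq_card] at h1
  have h2 : Fintype.card {e : G.edgeSet // e.1 ∈ A} = A.card := by
    rw [← Fintype.card_coe A]
    apply Fintype.card_congr
    exact
      { toFun := fun e => ⟨e.1.1, e.2⟩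
        invFun := fun e => ⟨⟨e.1, hA e.2⟩, e.2⟩
        left_inv := fun _ => rfl
        right_inv := fun _ => rfl }
  have h3 := range_le G A
  rw [← hL] at h3
  -- dimension of the cycle space
  set P := {X : Reg G σ A // (bdr G σ A X).Nonempty} with hP
  have h4 : (LinearMap.ker L).map (ext0 G A) ≤ Submodule.span ℚ (Set.range
      (fun X : P => DD G σ (ind G σ A X.1))) := by
    rintro _ ⟨y, hy, rfl⟩
    have hy' : bdry G (ext0 G A y) = 0 := hy
    have h5 : ext0 G A y ∈ LinearMap.range (DD G σ) := by
      rw [ker_bdry G hσ heu]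
      exact hy'
    obtain ⟨ψ, hψ⟩ := h5
    rw [← hψ]
    apply mem_span_of_supported
    intro d hd
    have h6 : DD G σ ψ ⟨d.edge, d.edge_mem⟩ = 0 := by
      rw [hψ]
      simp [ext0, hd]
    rw [DD_apply, sub_eq_zero] at h6
    rcases (dart_edge_eq_iff _ _).mp (dt_edge G ⟨d.edge, d.edge_mem⟩) with h7 | h7
    · rw [h7] at h6; exact h6
    · rw [h7, Dart.symm_symm] at h6; exact h6.symm
  have h5 : Module.finrank ℚ (LinearMap.ker L) ≤ Module.finrank ℚ (Submodule.span ℚ (Set.range
      (fun X : P => DD G σ (ind G σ A X.1)))) := by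
    have h6 := Submodule.finrank_mono h4
    rwa [← (Submodule.equivMapOfInjective _ (ext0_inj G A) (LinearMap.ker L)).finrank_eq] at h6
  have h6 : 2 * m * Fintype.card P ≤ 2 * A.card := by
    refine le_trans ?_ (sum_bdr_le G σ A)
    have h7 : ∑ X : P, (bdr G σ A X.1).card ≤ ∑ X : Reg G σ A, (bdr G σ A X).card := by
      rw [← Finset.sum_subtype (Finset.univ.filter fun X : Reg G σ A =>
        (bdr G σ A X).Nonempty) (by simp) (fun X => (bdr G σ A X).card)]
      exact Finset.sum_le_sum_of_subset (Finset.filter_subset _ _)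
    refine le_trans ?_ h7
    rw [mul_comm, ← smul_eq_mul, ← Finset.card_univ]
    apply Finset.card_nsmul_le_sum
    rintro ⟨X, hX⟩ _
    exact hm (bdr G σ A X) (fun e he => (Finset.mem_filter.mp he).1) hX (bdr_even G hσ A X)
  have h7 : m * Fintype.card P ≤ A.card := by nlinarith
  rcases isEmpty_or_nonempty P with hE | hE
  · left
    have h8 : Module.finrank ℚ (Submodule.span ℚ (Set.range
      (fun X : P => DD G σ (ind G σ A X.1)))) ≤ Fintype.card P := finrank_range_le_card _
    have h9 : Fintype.card P = 0 := Fintype.card_eq_zero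
    omega
  · right
    have h8 := finrank_lt (fun X : P => DD G σ (ind G σ A X.1)) (sum_DD_ind G σ A)
    have h9 : A.card + 1 ≤ rk A + Fintype.card P := by omega
    nlinarith [Nat.mul_le_mul_left m h9]

/-- a graph with a 2-colouring has girth at least four -/
theorem four_le_egirth {V : Type} (G : SimpleGraph V) (f : V → Bool)
    (hf : ∀ u v, G.Adj u v → f u ≠ f v) : (4 : ℕ∞) ≤ G.egirth := by
  rw [le_egirth]
  intro a w hw
  have h3 := hw.three_le_length
  have he : Even w.length := by
    let C : G.Coloring Bool := SimpleGraph.Coloring.mk f (fun {u v} h => hf u v h)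
    exact (C.even_length_iff_congr w).2 Iff.rfl
  have : 4 ≤ w.length := by
    obtain ⟨k, hk⟩ := he
    omega
  exact_mod_cast this

open Classical in
theorem even_bip {V : Type} [Fintype V] (A : Finset (Sym2 V)) (f : V → Bool)
    (hf : ∀ u v, s(u, v) ∈ A → f u ≠ f v) :
    ∀ B ⊆ A, B.Nonempty → (∀ v, Even (B.filter (fun e => v ∈ e)).card) → 2 * 2 ≤ B.card := by
  intro B hBA hB hev
  set G : SimpleGraph V := fromEdgeSet (A : Set (Sym2 V)) with hG
  have h4 : (4 : ℕ∞) ≤ G.egirth := by
    apply four_le_egirth G f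
    intro u v huv
    rw [hG, fromEdgeSet_adj] at huv
    exact hf u v (by exact_mod_cast huv.1)
  have h5 : ∀ e ∈ B, e ∈ G.edgeSet := by
    intro e he
    rw [hG, edgeSet_fromEdgeSet]
    refine ⟨by exact_mod_cast hBA he, ?_⟩
    intro hd
    induction e using Sym2.ind with
    | _ a b =>
      have hab : a = b := by simpa using hd
      subst hab
      exact hf a a (hBA he) rfl
  have h8 := even_card_ge_girth G B h5 hB hev
  exact_mod_cast h4.trans h8

end Pool.Agent.K3h87.Tor
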