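import Pool.Agent.K3h87.Tor.Planar

set_option autoImplicit false

/-!
Planar graphs with a 2-colouring are 3-choosable.
-/

namespace Pool.Agent.K3h87.Tor

open SimpleGraph
open Pool.Agent.H239R2.Planar

open Classical in
theorem rk_le_covered {V : Type} [Fintype V] (A : Finset (Sym2 V)) :
    rk A ≤ (Finset.univ.filter (fun v : V => ∃ e ∈ A, v ∈ e)).card := by
  set W := Finset.univ.filter (fun v : V => ∃ e ∈ A, v ∈ e) with hW
  have hle : Submodule.span ℚ {x : V → ℚ | ∃ u v : V, s(u, v) ∈ A ∧
      x = Pi.single u 1 - Pi.single v 1} ≤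
      Submodule.span ℚ (Set.range (fun w : W => (Pi.single w.1 1 : V → ℚ))) := by
    rw [Submodule.span_le]
    rintro x ⟨u, v, huv, rfl⟩
    have hu : u ∈ W := Finset.mem_filter.2 ⟨Finset.mem_univ _, _, huv, Sym2.mem_mk_left _ _⟩
    have hv : v ∈ W := Finset.mem_filter.2 ⟨Finset.mem_univ _, _, huv, Sym2.mem_mk_right _ _⟩
    exact Submodule.sub_mem _ (Submodule.subset_span ⟨⟨u, hu⟩, rfl⟩)
      (Submodule.subset_span ⟨⟨v, hv⟩, rfl⟩)
  calc rk A ≤ Module.finrank ℚ (Submodule.span ℚ (Set.range
        (fun w : W => (Pi.single w.1 1 : V → ℚ)))) := Submodule.finrank_mono hle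
    _ ≤ Fintype.card W := finrank_range_le_card _
    _ = W.card := Fintype.card_coe W

open Classical in
/-- the edges of a planar graph with a 2-colouring can be oriented with outdegrees at most two -/
theorem exists_orientation {V : Type} [Fintype V] (G : SimpleGraph V) (hG : IsPlanar G)
    (f : V → Bool) (hf : ∀ u v, G.Adj u v → f u ≠ f v) :
    ∃ F : G.edgeSet → V × Bool, Function.Injective F ∧ ∀ e, (F e).1 ∈ e.1 := by
  set t : G.edgeSet → Finset (V × Bool) := fun e => Finset.univ.filter (fun p => p.1 ∈ e.1) with ht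
  have hall : ∀ s : Finset G.edgeSet, s.card ≤ (s.biUnion t).card := by
    intro s
    set A : Finset (Sym2 V) := s.image (fun e => e.1) with hA
    have hAc : A.card = s.card := by
      rw [hA, Finset.card_image_of_injective _ Subtype.val_injective]
    have hAG : (A : Set (Sym2 V)) ⊆ G.edgeSet := by
      intro e he
      simp only [hA, Finset.coe_image, Set.mem_image] at he
      obtain ⟨e', _, rfl⟩ := he
      exact e'.2
    have h1 := planar_sub_sparse G hG 2 A hAG (even_bip A f (fun u v h => by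
      have := hAG (by exact_mod_cast h : s(u, v) ∈ (A : Set (Sym2 V)))
      exact hf u v this))
    have h2 := rk_le_covered A
    set W := Finset.univ.filter (fun v : V => ∃ e ∈ A, v ∈ e) with hW
    have h3 : s.biUnion t = W ×ˢ (Finset.univ : Finset Bool) := by
      ext ⟨v, b⟩
      simp only [Finset.mem_biUnion, ht, Finset.mem_filter, Finset.mem_univ, true_and,
        Finset.mem_product, and_true, hW, hA, Finset.mem_image]
      constructor
      · rintro ⟨e, he, hv⟩
        exact ⟨e.1, ⟨e, he, rfl⟩, hv⟩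
      · rintro ⟨_, ⟨e, he, rfl⟩, hv⟩
        exact ⟨e, he, hv⟩
    rw [h3, Finset.card_product, Finset.card_univ, Fintype.card_bool, ← hAc]
    omega
  obtain ⟨F, hF1, hF2⟩ := (Finset.all_card_le_biUnion_card_iff_exists_injective t).1 hall
  exact ⟨F, hF1, fun e => (Finset.mem_filter.1 (hF2 e)).2⟩

/-- **planar graphs with a 2-colouring are 3-choosable** -/
theorem three_choosable {V : Type} [Finite V] (G : SimpleGraph V) (hG : IsPlanar G)
    (f : V → Bool) (hf : ∀ u v, G.Adj u v → f u ≠ f v) : Choosable G 3 := by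
  classical
  have := Fintype.ofFinite V
  obtain ⟨F, hF1, hF2⟩ := exists_orientation G hG f hf
  set R : V → V → Prop := fun u v => ∃ h : G.Adj u v, (F ⟨s(u, v), h⟩).1 = u with hR
  intro L hL
  obtain ⟨c, hc1, hc2⟩ := kernel_colour R f (fun u v h => hf u v h.1) _ Finset.univ L rfl (by
    intro v _
    have h1 : (Finset.univ.filter (fun w => R v w)).card ≤ (Finset.univ : Finset Bool).card := by
      apply Finset.card_le_card_of_injOn
        (fun w => if h : G.Adj v w then (F ⟨s(v, w), h⟩).2 else true)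
        (fun _ _ => Finset.mem_coe.2 (Finset.mem_univ _))
      intro w hw w' hw' hww
      simp only [Finset.coe_filter, Finset.mem_univ, true_and, Set.mem_ofPred_eq] at hw hw'
      obtain ⟨h1, h2⟩ := hw
      obtain ⟨h3, h4⟩ := hw'
      simp only [h1, h3, dif_pos] at hww
      have h5 : F ⟨s(v, w), h1⟩ = F ⟨s(v, w'), h3⟩ := Prod.ext (h2.trans h4.symm) hww
      have h6 := congrArg Subtype.val (hF1 h5)
      simp only [Sym2.eq_iff] at h6
      rcases h6 with ⟨_, h7⟩ | ⟨h7, _⟩
      · exact h7
      · exact absurd h7 h3.ne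
    have h2 := hL v
    rw [Finset.card_univ, Fintype.card_bool] at h1
    omega)
  refine ⟨c, fun v => hc1 v (Finset.mem_univ _), fun u v huv => ?_⟩
  have h1 := hF2 ⟨s(u, v), huv⟩
  rw [Sym2.mem_iff] at h1
  rcases h1 with h1 | h1
  · exact hc2 u (Finset.mem_univ _) v (Finset.mem_univ _) ⟨huv, h1⟩
  · have h2 : R v u := by
      refine ⟨huv.symm, ?_⟩
      have e : (⟨s(v, u), huv.symm⟩ : G.edgeSet) = ⟨s(u, v), huv⟩ := Subtype.ext Sym2.eq_swap
      rw [e]; exact h1
    exact (hc2 v (Finset.mem_univ _) u (Finset.mem_univ _) h2).symm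

end Pool.Agent.K3h87.Tor
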