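import Pool.Agent.K3h87.Tor.Embed

set_option autoImplicit false

/-!
The graph `GG` is toroidal.
-/

namespace Pool.Agent.K3h87.Tor

open SimpleGraph
open Pool.Agent.H239R2.Planar

/-- the rotation system of `GG` -/
def tab : Table GG where
  dg := dgV
  nb := nbV
  pos := posV
  pos_lt := fun x y h => (chk1 x y h).1
  nb_pos := fun x y h => (chk1 x y h).2
  adj_nb := fun x n h => (chk2 x n h).1
  pos_nb := fun x n h => (chk2 x n h).2

instance : DecidableRel GG.Adj := fun x y => decEq (adj x y) true

theorem card_edges : Nat.card GG.edgeSet = 236 := by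
  have h1 := tab.card_dart
  have h2 : ∑ x : VV, tab.dg x = 472 := by
    show ∑ x : VV, dgV x = 472
    decide +kernel
  have h3 : Fintype.card GG.Dart = 2 * GG.edgeFinset.card :=
    GG.dart_card_eq_twice_card_edges
  rw [h2, Nat.card_eq_fintype_card, h3] at h1
  rw [Nat.card_eq_fintype_card, ← edgeFinset_card]
  omega

theorem reach (x : VV) : GG.Reachable (cy 0) x := by
  have h1 : GG.Adj (cy 0) (cy 1) := by rw [GG_adj]; decide
  have h2 : GG.Adj (cy 0) (cy 2) := by rw [GG_adj]; decide
  have h3 : GG.Adj (cy 1) (cy 3) := by rw [GG_adj]; decide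
  rcases x with i | j | ⟨i, k⟩
  · fin_cases i
    · exact Reachable.refl _
    · exact h1.reachable
    · exact h2.reachable
    · exact h1.reachable.trans h3.reachable
  · have : GG.Adj (cy 0) (po j) := rfl
    exact this.reachable
  · have h4 : ∀ k, att 0 k = true ∨ att 1 k = true := by decide
    rcases h4 k with h | h
    · have : GG.Adj (cy 0) (ga i k) := h
      exact this.reachable
    · have : GG.Adj (cy 1) (ga i k) := h
      exact h1.reachable.trans this.reachable

theorem card_comp : Nat.card GG.ConnectedComponent ≤ 1 := by
  have : Subsingleton GG.ConnectedComponent := by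
    refine ⟨fun a b => ?_⟩
    induction a using ConnectedComponent.ind with | _ x =>
    induction b using ConnectedComponent.ind with | _ y =>
    exact ConnectedComponent.sound ((reach x).symm.trans (reach y))
  exact Finite.card_le_one_iff_subsingleton.2 this

theorem toroidal : IsToroidal GG := by
  refine ⟨tab.rot, tab.isRotation, ?_⟩
  have h1 := card_edges
  have h2 := card_comp
  have h3 : Nat.card VV = 84 := by simp
  have h4 : 152 ≤ Nat.card (Face GG tab.rot) :=
    tab.le_card_face 152 fidV (fun x y h => chk3 x y h) repV (fun n hn => (chk4 n hn).1)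
      (fun n hn => (chk4 n hn).2)
  omega

end Pool.Agent.K3h87.Tor
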